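import Pool.Agent.Lib.MP_3ca1b2_co.Perms

/-!
The chromatic spectrum of an `S`-signed graph need not be an interval: for a set `S` of nine
permutations of four colours the complete graph on five vertices has the values 3 and 5 in its
spectrum but not the value 4.
-/

namespace Pool.Agent.Results.MP_3ca1b2_co.SpectrumGap

open Pool.Agent.Lib.MP_3ca1b2_co

variable {V : Type*}

/-- `σ` is an `S`-signature of `G`: every arc `(v, w)` carries a permutation `σ v w ∈ S`, and the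
opposite arc carries the inverse permutation. -/
def IsSignature (G : SimpleGraph V) (S : Set (Equiv.Perm ℕ)) (σ : V → V → Equiv.Perm ℕ) : Prop :=
  ∀ v w, G.Adj v w → σ v w ∈ S ∧ σ w v = (σ v w)⁻¹

/-- `c` is a `j`-colouring of `(G, σ)`: the colours are in `{1, ..., j}` and
`σ v w (c v) ≠ c w` for every arc `(v, w)`. -/
def IsColouring (G : SimpleGraph V) (σ : V → V → Equiv.Perm ℕ) (j : ℕ) (c : V → ℕ) : Prop :=
  (∀ v, 1 ≤ c v ∧ c v ≤ j) ∧ ∀ v w, G.Adj v w → σ v w (c v) ≠ c w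

/-- The chromatic number of `(G, σ)`: the least positive `j` for which a `j`-colouring exists. -/
noncomputable def chi (G : SimpleGraph V) (σ : V → V → Equiv.Perm ℕ) : ℕ :=
  sInf {j : ℕ | 0 < j ∧ ∃ c : V → ℕ, IsColouring G σ j c}

/-- The `S`-chromatic spectrum of `G`. -/
def spectrum (G : SimpleGraph V) (S : Set (Equiv.Perm ℕ)) : Set ℕ :=
  {m | ∃ σ : V → V → Equiv.Perm ℕ, IsSignature G S σ ∧ chi G σ = m}

/-- A signature of the complete graph, with indices for the permutations after relabelling. -/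
structure Idx (σ : Fin 5 → Fin 5 → Equiv.Perm ℕ) (u : Equiv.Perm (Fin 5))
    (t0 t1 t2 a0 a1 a2 b0 b1 b2 : Fin 9) : Prop where
  inv : ∀ v w, v ≠ w → σ w v = (σ v w)⁻¹
  h01 : σ (u 0) (u 1) = P t0
  h02 : σ (u 0) (u 2) = P t1
  h12 : σ (u 1) (u 2) = P t2
  h03 : σ (u 0) (u 3) = P a0
  h13 : σ (u 1) (u 3) = P a1
  h23 : σ (u 2) (u 3) = P a2
  h04 : σ (u 0) (u 4) = P b0
  h14 : σ (u 1) (u 4) = P b1
  h24 : σ (u 2) (u 4) = P b2
  h34 : σ (u 3) (u 4) = P 2

lemma act_of (i : Fin 9) {x y : ℕ} (hx : x < 4) (h : act i x = y) : P i (x + 1) = y + 1 := by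
  rw [P_act i x hx, h]

lemma act_ne (i : Fin 9) {x y : ℕ} (hx : x < 4) (h : ¬ act i x = y) : P i (x + 1) ≠ y + 1 := by
  rw [P_act i x hx]
  intro h'
  exact h (Nat.succ_injective h')

/-- A colouring with at most four colours shows that not everything is blocked. -/
lemma not_bad_of_colouring {σ : Fin 5 → Fin 5 → Equiv.Perm ℕ} {u : Equiv.Perm (Fin 5)}
    {t0 t1 t2 a0 a1 a2 b0 b1 b2 : Fin 9} (H : Idx σ u t0 t1 t2 a0 a1 a2 b0 b1 b2)
    {j : ℕ} (hj : j ≤ 4) {c : Fin 5 → ℕ} (hc : IsColouring (⊤ : SimpleGraph (Fin 5)) σ j c) :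
    ¬ bad j t0 t1 t2 a0 a1 a2 b0 b1 b2 = true := by
  intro hb
  rw [bad_iff] at hb
  obtain ⟨hr, hp⟩ := hc
  have hlt : ∀ v, c v - 1 < j := fun v => by have := hr v; omega
  have hlt4 : ∀ v, c v - 1 < 4 := fun v => lt_of_lt_of_le (hlt v) hj
  have heq : ∀ v, c v - 1 + 1 = c v := fun v => by have := hr v; omega
  have hne : ∀ i k : Fin 5, i ≠ k → σ (u i) (u k) (c (u i)) ≠ c (u k) := by
    intro i k hik
    exact hp _ _ ((SimpleGraph.top_adj _ _).2 (fun h => hik (u.injective h)))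
  have key : ∀ (i k : Fin 5) (s : Fin 9), i ≠ k → σ (u i) (u k) = P s →
      ¬ act s (c (u i) - 1) = c (u k) - 1 := by
    intro i k s hik hs h
    have h2 := act_of s (hlt4 (u i)) h
    rw [heq, heq] at h2
    exact hne i k hik (by rw [hs]; exact h2)
  rcases hb _ (hlt (u 0)) _ (hlt (u 1)) _ (hlt (u 2)) _ (hlt (u 3)) _ (hlt (u 4)) with
    (h | h | h) | (h | h | h) | (h | h | h) | h
  · exact key 0 1 t0 (by decide) H.h01 h
  · exact key 0 2 t1 (by decide) H.h02 h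
  · exact key 1 2 t2 (by decide) H.h12 h
  · exact key 0 3 a0 (by decide) H.h03 h
  · exact key 1 3 a1 (by decide) H.h13 h
  · exact key 2 3 a2 (by decide) H.h23 h
  · exact key 0 4 b0 (by decide) H.h04 h
  · exact key 1 4 b1 (by decide) H.h14 h
  · exact key 2 4 b2 (by decide) H.h24 h
  · exact key 3 4 2 (by decide) H.h34 h

/-- If not everything is blocked then there is a colouring. -/
lemma colouring_of_not_bad {σ : Fin 5 → Fin 5 → Equiv.Perm ℕ} {u : Equiv.Perm (Fin 5)}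
    {t0 t1 t2 a0 a1 a2 b0 b1 b2 : Fin 9} (H : Idx σ u t0 t1 t2 a0 a1 a2 b0 b1 b2)
    {j : ℕ} (hj : j ≤ 4) (hb : ¬ bad j t0 t1 t2 a0 a1 a2 b0 b1 b2 = true) :
    ∃ c : Fin 5 → ℕ, IsColouring (⊤ : SimpleGraph (Fin 5)) σ j c := by
  rw [bad_iff] at hb
  push Not at hb
  obtain ⟨c0, h0, c1, h1, c2, h2, x, hx, y, hy, ⟨k1, k2, k3⟩, ⟨k4, k5, k6⟩, ⟨k7, k8, k9⟩, k10⟩ := hb
  set d : Fin 5 → ℕ := ![c0 + 1, c1 + 1, c2 + 1, x + 1, y + 1] with hd
  have hlt : ∀ i k : Fin 5, i < k → σ (u i) (u k) (d i) ≠ d k := by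
    intro i k hik
    fin_cases i <;> fin_cases k
    all_goals first
      | exact absurd hik (by decide)
      | skip
    · change σ (u 0) (u 1) (c0 + 1) ≠ c1 + 1
      rw [H.h01]; exact act_ne _ (by omega) k1
    · change σ (u 0) (u 2) (c0 + 1) ≠ c2 + 1
      rw [H.h02]; exact act_ne _ (by omega) k2
    · change σ (u 0) (u 3) (c0 + 1) ≠ x + 1
      rw [H.h03]; exact act_ne _ (by omega) k4
    · change σ (u 0) (u 4) (c0 + 1) ≠ y + 1
      rw [H.h04]; exact act_ne _ (by omega) k7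
    · change σ (u 1) (u 2) (c1 + 1) ≠ c2 + 1
      rw [H.h12]; exact act_ne _ (by omega) k3
    · change σ (u 1) (u 3) (c1 + 1) ≠ x + 1
      rw [H.h13]; exact act_ne _ (by omega) k5
    · change σ (u 1) (u 4) (c1 + 1) ≠ y + 1
      rw [H.h14]; exact act_ne _ (by omega) k8
    · change σ (u 2) (u 3) (c2 + 1) ≠ x + 1
      rw [H.h23]; exact act_ne _ (by omega) k6
    · change σ (u 2) (u 4) (c2 + 1) ≠ y + 1
      rw [H.h24]; exact act_ne _ (by omega) k9
    · change σ (u 3) (u 4) (x + 1) ≠ y + 1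
      rw [H.h34]; exact act_ne 2 (by omega) k10
  have hne : ∀ i k : Fin 5, i ≠ k → σ (u i) (u k) (d i) ≠ d k := by
    intro i k hik
    rcases lt_or_gt_of_ne hik with h | h
    · exact hlt i k h
    · intro he
      apply hlt k i h
      rw [H.inv (u k) (u i) (fun h => hik (u.injective h).symm)] at he
      rw [← he]; simp
  refine ⟨fun v => d (u.symm v), ?_, ?_⟩
  · have hd' : ∀ i : Fin 5, 1 ≤ d i ∧ d i ≤ j := by
      intro i
      fin_cases i
      · exact ⟨Nat.succ_pos c0, h0⟩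
      · exact ⟨Nat.succ_pos c1, h1⟩
      · exact ⟨Nat.succ_pos c2, h2⟩
      · exact ⟨Nat.succ_pos x, hx⟩
      · exact ⟨Nat.succ_pos y, hy⟩
    exact fun v => hd' (u.symm v)
  · intro v w hvw
    have h := hne (u.symm v) (u.symm w) (fun h => (SimpleGraph.top_adj v w).1 hvw
      (u.symm.injective h))
    simpa using h

lemma mono {σ : Fin 5 → Fin 5 → Equiv.Perm ℕ} {j j' : ℕ} (h : j ≤ j') {c : Fin 5 → ℕ}
    (hc : IsColouring (⊤ : SimpleGraph (Fin 5)) σ j c) :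
    IsColouring (⊤ : SimpleGraph (Fin 5)) σ j' c :=
  ⟨fun v => ⟨(hc.1 v).1, (hc.1 v).2.trans h⟩, hc.2⟩

/-- Every signature of the complete graph with a 4-colouring has a 3-colouring. -/
lemma three_of_four {σ : Fin 5 → Fin 5 → Equiv.Perm ℕ}
    (hσ : IsSignature (⊤ : SimpleGraph (Fin 5)) (Set.range P) σ)
    (h4 : ∃ c : Fin 5 → ℕ, IsColouring (⊤ : SimpleGraph (Fin 5)) σ 4 c) :
    ∃ c : Fin 5 → ℕ, IsColouring (⊤ : SimpleGraph (Fin 5)) σ 3 c := by
  by_contra h3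
  -- the constant colouring 3 fails
  obtain ⟨v, w, hvw, hfix⟩ : ∃ v w : Fin 5, v ≠ w ∧ σ v w 3 = 3 := by
    by_contra hcon
    push Not at hcon
    exact h3 ⟨fun _ => 3, fun _ => ⟨by norm_num, le_refl 3⟩,
      fun v w h => hcon v w ((SimpleGraph.top_adj v w).1 h)⟩
  -- relabelling
  obtain ⟨u, hu3, hu4⟩ : ∃ u : Equiv.Perm (Fin 5), u 3 = v ∧ u 4 = w := by
    refine ⟨Equiv.swap (Equiv.swap 3 v 4) w * Equiv.swap 3 v, ?_, ?_⟩
    · rw [Equiv.Perm.mul_apply, Equiv.swap_apply_left]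
      apply Equiv.swap_apply_of_ne_of_ne _ hvw
      intro h
      have : Equiv.swap 3 v 3 = Equiv.swap 3 v (4 : Fin 5) := by
        rw [Equiv.swap_apply_left]; exact h
      exact absurd ((Equiv.swap (3 : Fin 5) v).injective this) (by decide)
    · rw [Equiv.Perm.mul_apply, Equiv.swap_apply_left]
  have hex : ∀ i k : Fin 5, ∃ s : Fin 9, i ≠ k → σ (u i) (u k) = P s := by
    intro i k
    by_cases hik : i = k
    · exact ⟨0, fun h => absurd hik h⟩
    · obtain ⟨s, hs⟩ := (hσ (u i) (u k) ((SimpleGraph.top_adj _ _).2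
        (fun h => hik (u.injective h)))).1
      exact ⟨s, fun _ => hs.symm⟩
  choose s hs using hex
  have h34 : σ (u 3) (u 4) = P 2 := by
    have h := hs 3 4 (by decide)
    rw [hu3, hu4] at h ⊢
    rw [h] at hfix
    rw [h, P_three _ hfix]
  have H : Idx σ u (s 0 1) (s 0 2) (s 1 2) (s 0 3) (s 1 3) (s 2 3) (s 0 4) (s 1 4) (s 2 4) :=
    ⟨fun v w h => (hσ v w ((SimpleGraph.top_adj _ _).2 h)).2, hs 0 1 (by decide),
      hs 0 2 (by decide), hs 1 2 (by decide), hs 0 3 (by decide), hs 1 3 (by decide),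
      hs 2 3 (by decide), hs 0 4 (by decide), hs 1 4 (by decide), hs 2 4 (by decide), h34⟩
  have hb3 : bad 3 (s 0 1) (s 0 2) (s 1 2) (s 0 3) (s 1 3) (s 2 3) (s 0 4) (s 1 4) (s 2 4)
      = true := by
    by_contra hb
    exact h3 (colouring_of_not_bad H (by norm_num) hb)
  have hb4 := bad_four (s 0 1).2 (s 0 2).2 (s 1 2).2 (s 0 3).2 (s 1 3).2 (s 2 3).2 (s 0 4).2
    (s 1 4).2 (s 2 4).2 hb3
  obtain ⟨c, hc⟩ := h4
  exact not_bad_of_colouring H (le_refl 4) hc hb4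

/-- A signature of the complete graph given by a table of indices. -/
def sig (m : Fin 5 → Fin 5 → Fin 9) (v w : Fin 5) : Equiv.Perm ℕ :=
  if v < w then P (m v w) else (P (m w v))⁻¹

lemma sig_inv (m : Fin 5 → Fin 5 → Fin 9) (v w : Fin 5) (h : v ≠ w) :
    sig m w v = (sig m v w)⁻¹ := by
  unfold sig
  rcases lt_or_gt_of_ne h with h | h
  · simp [h, not_lt_of_gt h]
  · simp [h, not_lt_of_gt h]

lemma sig_isSignature (m : Fin 5 → Fin 5 → Fin 9) :
    IsSignature (⊤ : SimpleGraph (Fin 5)) (Set.range P) (sig m) := by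
  intro v w hvw
  refine ⟨?_, sig_inv m v w ((SimpleGraph.top_adj v w).1 hvw)⟩
  unfold sig
  split_ifs
  · exact ⟨_, rfl⟩
  · exact ⟨pinv (m w v), P_pinv _⟩

lemma sig_idx (m : Fin 5 → Fin 5 → Fin 9) (h : m 3 4 = 2) :
    Idx (sig m) 1 (m 0 1) (m 0 2) (m 1 2) (m 0 3) (m 1 3) (m 2 3) (m 0 4) (m 1 4) (m 2 4) :=
  ⟨sig_inv m, rfl, rfl, rfl, rfl, rfl, rfl, rfl, rfl, rfl, by rw [← h]; rfl⟩

lemma chi_eq {σ : Fin 5 → Fin 5 → Equiv.Perm ℕ} {j : ℕ}
    (h1 : ∃ c : Fin 5 → ℕ, IsColouring (⊤ : SimpleGraph (Fin 5)) σ (j + 1) c)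
    (h2 : ¬ ∃ c : Fin 5 → ℕ, IsColouring (⊤ : SimpleGraph (Fin 5)) σ j c) :
    chi (⊤ : SimpleGraph (Fin 5)) σ = j + 1 := by
  apply le_antisymm
  · exact Nat.sInf_le ⟨Nat.succ_pos j, h1⟩
  · refine le_csInf ⟨j + 1, Nat.succ_pos j, h1⟩ ?_
    rintro i ⟨-, c, hc⟩
    by_contra hlt
    exact h2 ⟨c, mono (by omega) hc⟩

/-- There is an inverse-closed set `S` of permutations of `{1, 2, 3, 4}` such that the chromatic
spectrum of the complete graph on five vertices contains 3 and 5 but not 4. -/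
theorem result : ∃ S : Set (Equiv.Perm ℕ), S.Nonempty ∧ (∀ π ∈ S, π⁻¹ ∈ S) ∧
    (∀ π ∈ S, ∀ x : ℕ, ¬ (1 ≤ x ∧ x ≤ 4) → π x = x) ∧
    3 ∈ spectrum (⊤ : SimpleGraph (Fin 5)) S ∧
    4 ∉ spectrum (⊤ : SimpleGraph (Fin 5)) S ∧
    5 ∈ spectrum (⊤ : SimpleGraph (Fin 5)) S := by
  refine ⟨Set.range P, ⟨P 0, 0, rfl⟩, ?_, ?_, ?_, ?_, ?_⟩
  · rintro π ⟨i, rfl⟩
    exact ⟨pinv i, P_pinv i⟩
  · rintro π ⟨i, rfl⟩ x hx
    exact P_fix i x hx
  · set m : Fin 5 → Fin 5 → Fin 9 :=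
      ![![0, 2, 1, 1, 7], ![0, 0, 4, 7, 6], ![0, 0, 0, 7, 3], ![0, 0, 0, 0, 2], ![0, 0, 0, 0, 0]]
    refine ⟨sig m, sig_isSignature m, ?_⟩
    have H := sig_idx m rfl
    apply chi_eq (j := 2)
    · apply colouring_of_not_bad H (by norm_num)
      decide +kernel
    · rintro ⟨c, hc⟩
      refine not_bad_of_colouring H (by norm_num) hc ?_
      decide +kernel
  · rintro ⟨σ, hσ, hchi⟩
    have hne : {j : ℕ | 0 < j ∧ ∃ c : Fin 5 → ℕ,
        IsColouring (⊤ : SimpleGraph (Fin 5)) σ j c}.Nonempty := by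
      by_contra hemp
      rw [Set.not_nonempty_iff_eq_empty] at hemp
      unfold chi at hchi
      rw [hemp, Nat.sInf_empty] at hchi
      exact absurd hchi (by norm_num)
    have hmem := Nat.sInf_mem hne
    have hchi' : sInf {j : ℕ | 0 < j ∧ ∃ c : Fin 5 → ℕ,
        IsColouring (⊤ : SimpleGraph (Fin 5)) σ j c} = 4 := hchi
    rw [hchi'] at hmem
    have h3 := three_of_four hσ hmem.2
    have hle := Nat.sInf_le (s := {j : ℕ | 0 < j ∧ ∃ c : Fin 5 → ℕ,
        IsColouring (⊤ : SimpleGraph (Fin 5)) σ j c}) (m := 3) ⟨by norm_num, h3⟩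
    rw [hchi'] at hle
    exact absurd hle (by norm_num)
  · set m : Fin 5 → Fin 5 → Fin 9 :=
      ![![0, 1, 2, 0, 3], ![0, 0, 3, 1, 4], ![0, 0, 0, 5, 6], ![0, 0, 0, 0, 2], ![0, 0, 0, 0, 0]]
    refine ⟨sig m, sig_isSignature m, ?_⟩
    have H := sig_idx m rfl
    apply chi_eq (j := 4)
    · refine ⟨![1, 2, 1, 2, 5], ?_, ?_⟩
      · intro v
        fin_cases v <;> decide
      · have h : ∀ v w : Fin 5, v ≠ w → sig m v w (![1, 2, 1, 2, 5] v) ≠ ![1, 2, 1, 2, 5] w := by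
          have hlt : ∀ v w : Fin 5, v < w →
              P (m v w) (![1, 2, 1, 2, 5] v) ≠ ![1, 2, 1, 2, 5] w := by
            decide
          intro v w hvw
          unfold sig
          rcases lt_or_gt_of_ne hvw with h | h
          · rw [if_pos h]; exact hlt v w h
          · rw [if_neg (not_lt_of_gt h)]
            intro he
            apply hlt w v h
            rw [← he]; simp
        intro v w hvw
        exact h v w ((SimpleGraph.top_adj v w).1 hvw)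
    · rintro ⟨c, hc⟩
      refine not_bad_of_colouring H (by norm_num) hc ?_
      decide +kernel

end Pool.Agent.Results.MP_3ca1b2_co.SpectrumGap
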